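import Pool.Agent.J4H13.RM.Stm

/-! Piece NOR of project RL: the point of the curve under a point of `Spec B`. -/

set_option autoImplicit false

namespace Pool.Agent.J4H68.RM

open Pool.Agent.J4H13.RM

theorem t_NOR : S_NOR := by
  intro K _ _ E R B hR hRB φ
  obtain ⟨hfg, hD, hnf, hRE, hfrac⟩ := hR
  -- the restriction of φ to R
  let φR : R →ₐ[ℂ] ℂ := φ.comp (Subalgebra.inclusion hRB)
  let ι : R →+* E :=
    { toFun := fun r => ⟨r, hRE r⟩
      map_one' := rfl
      map_mul' := fun _ _ => rfl
      map_zero' := rfl
      map_add' := fun _ _ => rfl }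
  let _ : Algebra R E := ι.toAlgebra
  have hι : ∀ r : R, algebraMap R E r = ⟨r, hRE r⟩ := fun r => rfl
  have hinj : Function.Injective (algebraMap R E) := by
    intro a b h
    have := congrArg (fun z : E => (z : K)) h
    exact Subtype.ext this
  have hFR : IsFractionRing R E := by
    have : FaithfulSMul R E := (faithfulSMul_iff_algebraMap_injective R E).2 hinj
    refine IsFractionRing.of_field R E fun z => ?_
    obtain ⟨a, b, hb, hab⟩ := hfrac z z.2
    refine ⟨a, b, ?_⟩
    have hb' : (algebraMap R E b) ≠ 0 := fun h => hb (hinj (by rw [h, map_zero]))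
    rw [eq_div_iff hb']
    exact Subtype.ext hab
  set P : Ideal R := RingHom.ker (φR : R →+* ℂ) with hP
  have hPmem : ∀ r : R, r ∈ P ↔ φR r = 0 := fun r => RingHom.mem_ker
  have hPprime : P.IsPrime := RingHom.ker_isPrime _
  have hsurj : Function.Surjective (φR : R →+* ℂ) := fun c => ⟨algebraMap ℂ R c, by simp⟩
  have hPmax : P.IsMaximal := RingHom.ker_isMaximal_of_surjective _ hsurj
  have hPne : P ≠ ⊥ := by
    intro h
    apply hnf
    exact Ring.isField_iff_maximal_bot.2 (h ▸ hPmax)
  -- the valuation ring
  let v : IsDedekindDomain.HeightOneSpectrum R := ⟨P, hPprime, hPne⟩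
  let V : ValuationSubring E := (v.valuation E).valuationSubring
  set w := v.valuation E with hw
  have hw1 : ∀ r : R, r ∈ P → w (algebraMap R E r) < 1 := fun r hr =>
    (v.valuation_lt_one_iff_mem r).2 hr
  have hw2 : ∀ r : R, r ∉ P → w (algebraMap R E r) = 1 := by
    intro r hr
    refine le_antisymm (v.valuation_le_one r) (not_lt.1 fun h => hr ?_)
    exact (v.valuation_lt_one_iff_mem r).1 h
  have hnon : ∀ z : E, w z < 1 → z ∈ V.nonunits := by
    intro z hz
    rw [ValuationSubring.mem_nonunits_iff]
    exact (Valuation.isEquiv_valuation_valuationSubring w).lt_one_iff_lt_one.1 hz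
  -- the local ring at P is a valuation ring
  have hVR : ∀ z : E, ∃ x s : R, s ∉ P ∧ (z * algebraMap R E s = algebraMap R E x ∨
      z * algebraMap R E x = algebraMap R E s) := by
    intro z
    obtain ⟨a, b, hb, hab⟩ := hfrac z z.2
    have hab' : z * algebraMap R E b = algebraMap R E a := Subtype.ext hab
    have hDVR : IsDiscreteValuationRing (Localization.AtPrime P) :=
      IsLocalization.AtPrime.isDiscreteValuationRing_of_dedekind_domain R hPne _
    have hinjL : Function.Injective (algebraMap R (Localization.AtPrime P)) :=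
      IsLocalization.injective _ P.primeCompl_le_nonZeroDivisors
    obtain ⟨c, hc⟩ := ValuationRing.cond (algebraMap R (Localization.AtPrime P) a)
      (algebraMap R (Localization.AtPrime P) b)
    obtain ⟨⟨x, s⟩, hxs⟩ := IsLocalization.surj P.primeCompl c
    have hs : (s : R) ∉ P := s.2
    have hb' : algebraMap R E b ≠ 0 := fun h => hb (hinj (by rw [h, map_zero]))
    refine ⟨x, s, hs, ?_⟩
    rcases hc with hc | hc
    · right
      have h1 : a * x = b * s := by
        apply hinjL
        rw [map_mul, map_mul, ← hxs, ← hc]; ring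
      have h2 : algebraMap R E a * algebraMap R E x = algebraMap R E b * algebraMap R E s := by
        rw [← map_mul, ← map_mul, h1]
      rw [← hab'] at h2
      apply mul_left_cancel₀ hb'
      rw [← h2]; ring
    · left
      have h1 : b * x = a * s := by
        apply hinjL
        rw [map_mul, map_mul, ← hxs, ← hc]; ring
      have h2 : algebraMap R E b * algebraMap R E x = algebraMap R E a * algebraMap R E s := by
        rw [← map_mul, ← map_mul, h1]
      rw [← hab'] at h2
      apply mul_left_cancel₀ hb'
      rw [h2]; ring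
  have hconst : ∀ c : ℂ, algebraMap ℂ E c = algebraMap R E (algebraMap ℂ R c) := fun c => rfl
  obtain ⟨p, hpP, hp0⟩ := Submodule.exists_mem_ne_zero_of_ne_bot hPne
  have hp0' : algebraMap R E p ≠ 0 := fun h => hp0 (hinj (by rw [h, map_zero]))
  refine ⟨V, ⟨⟨fun c => ?_, fun h => ?_⟩, ?_⟩, ?_⟩
  · rw [hconst, Valuation.mem_valuationSubring_iff]
    exact v.valuation_le_one _
  · have h1 : (algebraMap R E p)⁻¹ ∈ V := by rw [h]; trivial
    rw [Valuation.mem_valuationSubring_iff, map_inv₀] at h1
    have h2 := hw1 p hpP
    have h3 : w (algebraMap R E p) ≠ 0 := (Valuation.ne_zero_iff _).2 hp0'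
    have h4 := (inv_le_one₀ (zero_lt_iff.2 h3)).1 h1
    exact absurd h2 (not_lt.2 h4)
  · intro b hbE
    have key : ∀ x s : R, s ∉ P → (⟨b, hbE⟩ : E) * algebraMap R E s = algebraMap R E x →
        (⟨b, hbE⟩ : E) - algebraMap ℂ E (φ b) ∈ V.nonunits := by
      intro x s hs hbs
      apply hnon
      have h1 : (b : K) * (s : K) = x := congrArg (fun z : E => (z : K)) hbs
      have h2 : b * Subalgebra.inclusion hRB s = Subalgebra.inclusion hRB x := Subtype.ext h1
      have h3 : φ b * φR s = φR x := by
        have := congrArg φ h2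
        rwa [map_mul] at this
      have h4 : x - algebraMap ℂ R (φ b) * s ∈ P := by
        rw [hPmem, map_sub, map_mul, AlgHom.commutes, ← h3]
        simp
      have h5 : ((⟨b, hbE⟩ : E) - algebraMap ℂ E (φ b)) * algebraMap R E s =
          algebraMap R E (x - algebraMap ℂ R (φ b) * s) := by
        rw [sub_mul, hbs, map_sub, map_mul, hconst]
      have h6 := hw1 _ h4
      rw [← h5, map_mul, hw2 s hs, mul_one] at h6
      exact h6
    obtain ⟨x, s, hs, h | h⟩ := hVR ⟨b, hbE⟩
    · exact key x s hs h
    · have h1 : (b : K) * (x : K) = s := congrArg (fun z : E => (z : K)) h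
      have h2 : b * Subalgebra.inclusion hRB x = Subalgebra.inclusion hRB s := Subtype.ext h1
      have h3 : φ b * φR x = φR s := by
        have := congrArg φ h2
        rwa [map_mul] at this
      have hx : x ∉ P := by
        intro hx
        rw [hPmem] at hx
        apply hs
        rw [hPmem, ← h3, hx, mul_zero]
      exact key s x hx h
  · rintro V' ⟨⟨hc', htop⟩, hmap⟩
    -- units and nonunits of `V'` and `V`
    have gen : ∀ U : ValuationSubring E, (∀ c : ℂ, algebraMap ℂ E c ∈ U) → MapsTo E φ U →
        (∀ r : R, algebraMap R E r ∈ U) ∧ (∀ r : R, r ∈ P → algebraMap R E r ∈ U.nonunits) ∧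
        (∀ r : R, r ∉ P → (algebraMap R E r)⁻¹ ∈ U) := by
      intro U hcU hU
      have h0 : ∀ r : R, algebraMap R E r - algebraMap ℂ E (φR r) ∈ U.nonunits := fun r =>
        hU (Subalgebra.inclusion hRB r) (hRE r)
      have h1 : ∀ r : R, algebraMap R E r ∈ U := by
        intro r
        have := U.add_mem _ _ (U.nonunits_subset (h0 r)) (hcU (φR r))
        rwa [sub_add_cancel] at this
      refine ⟨h1, fun r hr => ?_, fun r hr => ?_⟩
      · have := h0 r
        rw [(hPmem r).1 hr, map_zero, sub_zero] at this
        exact this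
      · have hne : φR r ≠ 0 := fun h => hr ((hPmem r).2 h)
        rw [← ValuationSubring.valuation_le_one_iff, map_inv₀]
        have h2 : U.valuation (algebraMap ℂ E (φR r)) = 1 := by
          refine le_antisymm ((U.valuation_le_one_iff _).2 (hcU _)) ?_
          have h3 := (U.valuation_le_one_iff _).2 (hcU (φR r)⁻¹)
          rw [map_inv₀, map_inv₀] at h3
          have h4 : U.valuation (algebraMap ℂ E (φR r)) ≠ 0 := by
            rw [Valuation.ne_zero_iff]
            exact fun h => hne ((algebraMap ℂ E).injective (by rw [h, map_zero]))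
          exact (inv_le_one₀ (zero_lt_iff.2 h4)).1 h3
        have h5 := (ValuationSubring.mem_nonunits_iff _).1 (h0 r)
        have h6 : U.valuation (algebraMap R E r) = 1 := by
          have := Valuation.map_add_eq_of_lt_left U.valuation (h5.trans_eq h2.symm)
          rw [add_sub_cancel, h2] at this
          exact this
        rw [h6, inv_one]
    have hVc : ∀ c : ℂ, algebraMap ℂ E c ∈ V := fun c => by
      rw [hconst, Valuation.mem_valuationSubring_iff]
      exact v.valuation_le_one _
    have sub : ∀ U U' : ValuationSubring E,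
        ((∀ r : R, algebraMap R E r ∈ U) ∧ (∀ r : R, r ∈ P → algebraMap R E r ∈ U.nonunits) ∧
        (∀ r : R, r ∉ P → (algebraMap R E r)⁻¹ ∈ U)) →
        ((∀ r : R, algebraMap R E r ∈ U') ∧ (∀ r : R, r ∈ P → algebraMap R E r ∈ U'.nonunits) ∧
        (∀ r : R, r ∉ P → (algebraMap R E r)⁻¹ ∈ U')) → ∀ z ∈ U, z ∈ U' := by
      intro U U' hU hU' z hz
      have good : ∀ x s : R, s ∉ P → z * algebraMap R E s = algebraMap R E x → z ∈ U' := by
        intro x s hs h
        have hs0 : algebraMap R E s ≠ 0 := fun h => hs (by
          have : s = 0 := hinj (by rw [h, map_zero])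
          rw [this]; exact P.zero_mem)
        have : z = algebraMap R E x * (algebraMap R E s)⁻¹ := by
          rw [← h, mul_assoc, mul_inv_cancel₀ hs0, mul_one]
        rw [this]
        exact U'.mul_mem _ _ (hU'.1 x) (hU'.2.2 s hs)
      obtain ⟨x, s, hs, h | h⟩ := hVR z
      · exact good x s hs h
      · by_cases hx : x ∈ P
        · exfalso
          have h1 := (ValuationSubring.mem_nonunits_iff _).1 (hU.2.1 x hx)
          have h2 := (U.valuation_le_one_iff _).2 hz
          have h3 : U.valuation (z * algebraMap R E x) < 1 := by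
            rw [map_mul]
            exact (mul_le_of_le_one_left' h2).trans_lt h1
          rw [h] at h3
          have h4 := (U.valuation_le_one_iff _).2 (hU.2.2 s hs)
          rw [map_inv₀] at h4
          have hs0 : algebraMap R E s ≠ 0 := fun h => hs (by
            have : s = 0 := hinj (by rw [h, map_zero])
            rw [this]; exact P.zero_mem)
          have h5 : U.valuation (algebraMap R E s) ≠ 0 := (Valuation.ne_zero_iff _).2 hs0
          exact absurd h3 (not_lt.2 ((inv_le_one₀ (zero_lt_iff.2 h5)).1 h4))
        · exact good s x hx h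
    have gV' := gen V' hc' hmap
    have gV : (∀ r : R, algebraMap R E r ∈ V) ∧ (∀ r : R, r ∈ P → algebraMap R E r ∈ V.nonunits) ∧
        (∀ r : R, r ∉ P → (algebraMap R E r)⁻¹ ∈ V) := by
      refine ⟨fun r => ?_, fun r hr => hnon _ (hw1 r hr), fun r hr => ?_⟩
      · rw [Valuation.mem_valuationSubring_iff]; exact v.valuation_le_one _
      · rw [Valuation.mem_valuationSubring_iff, map_inv₀]
        have := hw2 r hr
        rw [hw] at this
        rw [this, inv_one]
    exact SetLike.ext fun z => ⟨sub V' V gV' gV z, sub V V' gV gV' z⟩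

end Pool.Agent.J4H68.RM
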